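import Pool.Agent.H73.UG.YbDefs
import Pool.Agent.H33.UG.A1

/-!
# Reduction of the coordinate ring of the chart `x_i ≠ 0` to the section `x₀ = 0`
-/

set_option autoImplicit false

open MvPolynomial

namespace Pool.Agent.H47.UG.FF

/-- Scaling of the variables of a form. -/
theorem yr_aeval_mul_pow {K E : Type} [CommSemiring K] [CommSemiring E] [Algebra K E] {σ : Type} [Fintype σ]
    (y : σ → E) (b : E) {s : ℕ} {P : MvPolynomial σ K} (hP : P.IsHomogeneous s) :
    aeval (fun l => y l * b) P = aeval y P * b ^ s := by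
  rw [aeval_def, aeval_def, eval₂_eq', eval₂_eq', Finset.sum_mul]
  refine Finset.sum_congr rfl fun a ha => ?_
  have hs : ∑ l, a l = s := by
    have h1 := hP (mem_support_iff.1 ha)
    rw [← h1]
    rw [Finsupp.weight_apply, Finsupp.sum_fintype _ _ (by simp)]
    simp
  rw [mul_assoc]
  congr 1
  simp only [mul_pow]
  rw [Finset.prod_mul_distrib, Finset.prod_pow_eq_pow_sum, hs]

variable {K : Type} [Field K] [CharZero K] {n d : ℕ} {F : HP K n} (T : FF d F) (hF : Nice d F)

section

omit [CharZero K]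

theorem yr_res_hom {s : ℕ} {P : HP K n} (hP : P.IsHomogeneous s) : (res n P).IsHomogeneous s := by
  have h : ∀ l : Fin (n + 2), ((Fin.cons 0 X : Fin (n + 2) → MvPolynomial (Fin (n + 1)) K) l).IsHomogeneous 1 := by
    intro l
    refine Fin.cases ?_ (fun l => ?_) l
    · exact isHomogeneous_zero _ _ _
    · exact isHomogeneous_X _ _
  have h1 := IsHomogeneous.aeval hP _ h
  rwa [one_mul] at h1

theorem yr_toMY_eq_zero_iff (P : HP K n) : toMY F P = 0 ↔ res n F ∣ res n P := by
  change algebraMap (SY F) (MY F) (Ideal.Quotient.mk (Ideal.span {res n F}) (res n P)) = 0 ↔ _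
  rw [← Ideal.mem_span_singleton, ← Ideal.Quotient.eq_zero_iff_mem]
  constructor
  · intro h
    exact IsFractionRing.injective (SY F) (MY F) (by rw [h, map_zero])
  · intro h
    rw [h, map_zero]

theorem yr_toMY_F : toMY F F = 0 := (yr_toMY_eq_zero_iff F).2 dvd_rfl

end

include hF

theorem yr_prime_res : Prime (res n F) := hF.irr0.prime

theorem prime_SY : (Ideal.span {res n F}).IsPrime :=
  (Ideal.span_singleton_prime (yr_prime_res hF).ne_zero).2 (yr_prime_res hF)

theorem toMY_eq_zero (P : HP K n) : toMY F P = 0 ↔ res n F ∣ res n P := yr_toMY_eq_zero_iff P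

theorem toMY_X_ne (hd : 2 ≤ d) (i : Fin (n + 2)) (hi : i ≠ 0) : toMY F (X i) ≠ 0 := by
  intro h
  obtain ⟨j, rfl⟩ := Fin.exists_succ_eq.2 hi
  obtain ⟨Q, hQ⟩ := (toMY_eq_zero hF _).1 h
  have h1 : res n (X j.succ : HP K n) = X j := by
    unfold res
    rw [aeval_X, Fin.cons_succ]
  rw [h1] at hQ
  have hQ0 : Q ≠ 0 := by
    rintro rfl
    rw [mul_zero] at hQ
    exact X_ne_zero j hQ
  have h2 := totalDegree_mul_of_isDomain (yr_prime_res hF).ne_zero hQ0
  rw [← hQ, totalDegree_X, (yr_res_hom hF.hom).totalDegree (yr_prime_res hF).ne_zero] at h2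
  omega

theorem exists_red (hd : 2 ≤ d) (i : Fin (n + 2)) (hi : i ≠ 0) : ∃ red : T.A i →ₐ[K] MY F,
    ∀ (s : ℕ) (P : HP K n), P.IsHomogeneous s → ∀ a : T.A i, (a : T.L) = aeval T.x P / T.x i ^ s →
      red a * toMY F (X i) ^ s = toMY F P := by
  have hprime := prime_SY hF
  have hdom : IsDomain (SY F) := Ideal.Quotient.isDomain _
  -- the inverse of the image of `X i`
  have hX : (toMY F (X i)) ≠ 0 := toMY_X_ne hF hd i hi
  obtain ⟨b, hb⟩ : ∃ b : MY F, toMY F (X i) * b = 1 := by
    have hu : IsUnit (toMY F (X i)) := by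
      have h1 : toMY F (X i) ≠ 0 := hX
      exact (isUnit_iff_ne_zero (G₀ := MY F)).2 h1
    exact hu.exists_right_inv
  set ψ : HP K n →ₐ[K] MY F := aeval (fun l => toMY F (X l) * b) with hψ
  have haev : aeval (fun l => toMY F (X l)) = toMY F := (aeval_unique (toMY F)).symm
  have hψh : ∀ (s : ℕ) (P : HP K n), P.IsHomogeneous s → ψ P * toMY F (X i) ^ s = toMY F P := by
    intro s P hP
    rw [hψ, yr_aeval_mul_pow _ _ hP, haev, mul_assoc, ← mul_pow, mul_comm b, hb, one_pow, mul_one]
  let φ : HP K n →ₐ[K] T.A i :=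
    (aeval (fun l => T.x l / T.x i)).codRestrict (T.A i) (by
      intro P
      unfold A
      rw [Algebra.adjoin_range_eq_range_aeval]
      exact ⟨P, rfl⟩)
  have hφ : ∀ P, ((φ P : T.A i) : T.L) = aeval (fun l => T.x l / T.x i) P := fun _ => rfl
  have hφs : Function.Surjective φ := by
    rintro ⟨a, ha⟩
    have ha' := ha
    unfold A at ha'
    rw [Algebra.adjoin_range_eq_range_aeval] at ha'
    obtain ⟨P, hP⟩ := ha'
    exact ⟨P, Subtype.ext hP⟩
  have hker : RingHom.ker φ ≤ RingHom.ker ψ := by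
    intro P hP
    rw [RingHom.mem_ker] at hP ⊢
    have h0 : aeval (fun l => T.x l / T.x i) P = 0 := by rw [← hφ, hP]; rfl
    set N := P.totalDegree with hN
    set Q : HP K n := ∑ j ∈ Finset.range (N + 1), homogeneousComponent j P * X i ^ (N - j) with hQ
    have hQh : Q.IsHomogeneous N := by
      refine IsHomogeneous.sum _ _ _ fun j hj => ?_
      have h := (homogeneousComponent_isHomogeneous j P).mul (isHomogeneous_X_pow (R := K) i (N - j))
      rwa [Nat.add_sub_cancel' (Nat.lt_succ_iff.1 (Finset.mem_range.1 hj))] at h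
    have hψXi : ψ (X i) = 1 := by rw [hψ, aeval_X, hb]
    have hψQ : ψ Q = ψ P := by
      conv_rhs => rw [← sum_homogeneousComponent P]
      rw [hQ, map_sum, map_sum]
      refine Finset.sum_congr rfl fun j _ => ?_
      rw [map_mul, map_pow, hψXi, one_pow, mul_one]
    have hφQ : aeval (fun l => T.x l / T.x i) Q = aeval (fun l => T.x l / T.x i) P := by
      conv_rhs => rw [← sum_homogeneousComponent P]
      rw [hQ, map_sum, map_sum]
      refine Finset.sum_congr rfl fun j _ => ?_
      rw [map_mul, map_pow, aeval_X, div_self (T.x_ne i), one_pow, mul_one]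
    have h1 : aeval T.x Q = 0 := by
      have h2 := T.aeval_div i hQh
      rw [hφQ, h0] at h2
      rcases div_eq_zero_iff.1 h2.symm with h3 | h3
      · exact h3
      · exact absurd h3 (pow_ne_zero _ (T.x_ne i))
    obtain ⟨R, hR⟩ := (T.ker N Q hQh).1 h1
    have h4 : toMY F Q = 0 := by rw [hR, map_mul, yr_toMY_F, zero_mul]
    have h5 := hψh N Q hQh
    rw [h4, hψQ] at h5
    calc ψ P = ψ P * toMY F (X i) ^ N * b ^ N := by
          rw [mul_assoc, ← mul_pow, hb, one_pow, mul_one]
      _ = 0 := by rw [h5, zero_mul]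
  refine ⟨AlgHom.liftOfSurjective φ hφs ψ hker, fun s P hP a ha => ?_⟩
  have h1 : a = φ P := Subtype.ext (by rw [ha, hφ, T.aeval_div i hP])
  rw [h1, AlgHom.liftOfSurjective_apply]
  exact hψh s P hP

end Pool.Agent.H47.UG.FF
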